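import Pool.Agent.Y513.SB.Fin

/-!
# A finite and robust obstruction for all combinations of intrinsic volumes

Let `F = c₀ V₀ + c₁ V₁ + … + cₙ Vₙ` with `cᵢ ≥ 0` be a nonnegative combination of the intrinsic
volumes such that `cᵢ ≠ 0` for some `i ≥ 2`. There are finitely many convex bodies and a number
`ε > 0` such that for every subspace `H` with `dim H ≤ n - 2`, every monotonic symmetrization with
respect to `H` which is invariant on `H`-symmetric sets changes the value of `F` by at least `ε` on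
one of these finitely many bodies. If `n ≥ 3` and moreover `cᵢ ≠ 0` for some `1 ≤ i ≤ n - 1`, then
the same bodies work for all hyperplanes `H` as well.

In particular no such symmetrization preserves `F`; for `F = V_j` with `2 ≤ j ≤ n - 1` this is the
theorem `AllDimensions.result` (see `no_symmetrization` below). The conditions on the coefficients
are sharp: Minkowski symmetrization preserves `c₀ V₀ + c₁ V₁`, and for a hyperplane Steiner
symmetrization preserves `c₀ V₀ + cₙ Vₙ` (neither fact is proved here).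
-/

namespace Pool.Agent.Results.MP_b62b68_gt.NoNearlyPreservedCombination

open MeasureTheory Module Set
open scoped ENNReal NNReal
open Pool.Agent.Results.MP_b62b68_gt.NoSymmetrization (E O haarO plane proj volIn HSymm
  compactConvex nonemptyCompactConvex convexBodies V V_eq V_lt_top A hsymm_iff GoodSymmetrization)

/-- The functional `c₀ V₀ + c₁ V₁ + … + cₙ Vₙ` on the compact convex subsets of `ℝⁿ`. -/
noncomputable def combination (n : ℕ) (c : ℕ → ℝ≥0) (K : Set (E n)) : ℝ :=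
  ∑ i ∈ Finset.range (n + 1), (c i : ℝ) * (V n i K).toReal

/-- The intrinsic volume of order zero is the same for all nonempty sets. -/
theorem V_zero {n : ℕ} {K L : Set (E n)} (hK : K.Nonempty) (hL : L.Nonempty) :
    V n 0 K = V n 0 L := by
  rw [V_eq (Nat.zero_le n), V_eq (Nat.zero_le n)]
  congr 1
  refine lintegral_congr fun g => ?_
  congr 1
  have h1 : ∀ M : Set (E n), M.Nonempty → A n 0 (Nat.zero_le n) g '' M = Set.univ := by
    intro M hM
    refine Set.eq_univ_of_forall fun y => ?_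
    obtain ⟨x, hx⟩ := hM
    exact ⟨x, hx, Subsingleton.elim _ _⟩
  rw [h1 K hK, h1 L hL]

theorem V_empty {n i : ℕ} (hi : i ≤ n) : V n i (∅ : Set (E n)) = 0 := by
  rw [V_eq hi]
  simp

theorem combination_eq {n : ℕ} (c : ℕ → ℝ≥0) {K : Set (E n)} (hK : Bornology.IsBounded K) :
    combination n c K = (c 0 : ℝ) * (V n 0 K).toReal +
      (Pool.Agent.Y513.SG.F n (fun i => (c (i + 1) : ℝ≥0∞)) K).toReal := by
  unfold combination Pool.Agent.Y513.SG.F
  rw [Finset.sum_range_succ', add_comm, ENNReal.toReal_sum]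
  · congr 1
    refine Finset.sum_congr rfl fun i hi => ?_
    simp only [ENNReal.toReal_mul, ENNReal.coe_toReal]
  · intro i hi
    exact ENNReal.mul_ne_top ENNReal.coe_ne_top (V_lt_top (Finset.mem_range.1 hi) hK).ne

/-- **The finite robust obstruction.** Let `c₀, …, cₙ ≥ 0` be such that some `cᵢ` with
`2 ≤ i ≤ n` does not vanish. There are a finite family `𝓕` of convex bodies and `ε > 0` such that
the following holds for every linear subspace `H` of `ℝⁿ` with `dim H ≤ n - 2`, and also for every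
hyperplane `H` if `n ≥ 3` and some `cᵢ` with `1 ≤ i ≤ n - 1` does not vanish. For every class `𝓑`
that contains the convex bodies and consists of compact convex sets, and for every monotonic map
`D` from `𝓑` to the compact convex `H`-symmetric sets which is invariant on `H`-symmetric sets,
there is a body `K ∈ 𝓕` such that the values of `c₀ V₀ + … + cₙ Vₙ` at `D K` and at `K` differ by
at least `ε`. -/
theorem result (n : ℕ) (c : ℕ → ℝ≥0) (hc : ∃ i, 2 ≤ i ∧ i ≤ n ∧ c i ≠ 0) :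
    ∃ (𝓕 : Set (Set (E n))) (ε : ℝ), 𝓕.Finite ∧ 𝓕 ⊆ convexBodies n ∧ 0 < ε ∧
      ∀ H : Submodule ℝ (E n),
        (finrank ℝ H + 2 ≤ n ∨
          (3 ≤ n ∧ finrank ℝ H + 1 = n ∧ ∃ i, 1 ≤ i ∧ i ≤ n - 1 ∧ c i ≠ 0)) →
      ∀ 𝓑 : Set (Set (E n)), convexBodies n ⊆ 𝓑 → 𝓑 ⊆ compactConvex n →
      ∀ D : Set (E n) → Set (E n),
        (∀ K ∈ 𝓑, D K ∈ compactConvex n ∧ HSymm H (D K)) →
        (∀ K ∈ 𝓑, ∀ L ∈ 𝓑, K ⊆ L → D K ⊆ D L) →
        (∀ K ∈ 𝓑, HSymm H K → D K = K) →
        ∃ K ∈ 𝓕, ε ≤ |combination n c (D K) - combination n c K| := by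
  classical
  have hct : ∀ i : ℕ, ((c (i + 1) : ℝ≥0) : ℝ≥0∞) ≠ ∞ := fun i => ENNReal.coe_ne_top
  have h1 : ∃ i, 1 ≤ i ∧ i < n ∧ ((c (i + 1) : ℝ≥0) : ℝ≥0∞) ≠ 0 := by
    obtain ⟨i, hi1, hi2, hi⟩ := hc
    obtain ⟨k, rfl⟩ : ∃ k, i = k + 1 := ⟨i - 1, by omega⟩
    exact ⟨k, by omega, by omega, ENNReal.coe_ne_zero.2 hi⟩
  let p : Prop := 3 ≤ n ∧ ∃ i, 1 ≤ i ∧ i ≤ n - 1 ∧ c i ≠ 0
  let S : Finset ℕ := (Finset.range n).filter fun d => d + 2 ≤ n ∨ (d + 1 = n ∧ p)
  obtain ⟨𝓕, ε, hfin, hsub, hε, hobs⟩ := Pool.Agent.Y513.SB.obs_union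
    (n := n) (c := fun i => (c (i + 1) : ℝ≥0∞)) S (by
      intro d hd
      rw [Finset.mem_filter] at hd
      obtain ⟨-, hd | ⟨hd, hn, i, hi1, hi2, hi⟩⟩ := hd
      · exact Pool.Agent.Y513.SB.obs_low hct h1 hd
      · obtain ⟨k, rfl⟩ : ∃ k, i = k + 1 := ⟨i - 1, by omega⟩
        have := Pool.Agent.Y513.SB.obs_hyper hn hct h1
          ⟨k, by omega, ENNReal.coe_ne_zero.2 hi⟩
        have hdn : d = n - 1 := by omega
        rw [hdn]
        exact this)
  refine ⟨𝓕, ε, hfin, hsub, hε, ?_⟩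
  intro H hH 𝓑 h𝓑 h𝓑' D hmaps hmono hinv
  have hS : finrank ℝ H ∈ S := by
    rw [Finset.mem_filter, Finset.mem_range]
    rcases hH with h | ⟨h, h', h''⟩
    · exact ⟨by omega, Or.inl h⟩
    · exact ⟨by omega, Or.inr ⟨h', h, h''⟩⟩
  have hB : Pool.Agent.Y513.SB.Fix H D :=
    { compact := fun K hK => (hmaps K (h𝓑 hK)).1.1
      convex := fun K hK => (hmaps K (h𝓑 hK)).1.2
      symm := fun K hK => (hsymm_iff H _).1 (hmaps K (h𝓑 hK)).2
      mono := fun K hK L hL => hmono K (h𝓑 hK) L (h𝓑 hL)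
      inv := fun K hK hs => hinv K (h𝓑 hK) ((hsymm_iff H _).2 hs) }
  obtain ⟨K, hK, hKε⟩ := hobs H hS D hB
  refine ⟨K, hK, ?_⟩
  have hKb := hsub hK
  have hne : K.Nonempty := hKb.2.2.mono interior_subset
  have hD := (hmaps K (h𝓑 hKb)).1
  rw [combination_eq c hKb.1.isBounded, combination_eq c hD.1.isBounded]
  rcases (D K).eq_empty_or_nonempty with h0 | h0
  · rw [h0] at hKε ⊢
    have hF0 : Pool.Agent.Y513.SG.F n (fun i => (c (i + 1) : ℝ≥0∞)) (∅ : Set (E n)) = 0 := by
      unfold Pool.Agent.Y513.SG.F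
      refine Finset.sum_eq_zero fun i hi => ?_
      rw [V_empty (Finset.mem_range.1 hi), mul_zero]
    rw [hF0, ENNReal.toReal_zero, zero_sub, abs_neg, abs_of_nonneg ENNReal.toReal_nonneg] at hKε
    rw [hF0, V_empty (Nat.zero_le n), ENNReal.toReal_zero, mul_zero, add_zero, zero_sub, abs_neg]
    have h5 : (0 : ℝ) ≤ (c 0 : ℝ) * (V n 0 K).toReal :=
      mul_nonneg (c 0).2 ENNReal.toReal_nonneg
    have h6 : (0 : ℝ) ≤ (Pool.Agent.Y513.SG.F n (fun i => (c (i + 1) : ℝ≥0∞)) K).toReal :=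
      ENNReal.toReal_nonneg
    rw [abs_of_nonneg (add_nonneg h5 h6)]
    linarith
  · rw [V_zero h0 hne, add_sub_add_left_eq_sub]
    exact hKε

/-- The theorem `AllDimensions.result` is the special case of a single intrinsic volume `V_j` that
is preserved exactly. -/
theorem no_symmetrization (n i j : ℕ) (hi : i < n) (hj : 2 ≤ j) (hjn : j < n)
    (H : Submodule ℝ (E n)) (hH : finrank ℝ H = i) (𝓑 : Set (Set (E n)))
    (h𝓑 : 𝓑 = compactConvex n ∨ 𝓑 = nonemptyCompactConvex n ∨ 𝓑 = convexBodies n) :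
    ¬ ∃ D : Set (E n) → Set (E n), GoodSymmetrization 𝓑 H j D := by
  rintro ⟨D, hD⟩
  obtain ⟨𝓕, ε, -, hsub, hε, h⟩ := result n (Pi.single j 1) ⟨j, hj, by omega, by simp⟩
  have hb1 : convexBodies n ⊆ nonemptyCompactConvex n :=
    fun K hK => ⟨hK.1, hK.2.1, hK.2.2.mono interior_subset⟩
  have hb2 : nonemptyCompactConvex n ⊆ compactConvex n := fun K hK => ⟨hK.1, hK.2.1⟩
  have h𝓑1 : convexBodies n ⊆ 𝓑 := by
    rcases h𝓑 with rfl | rfl | rfl
    · exact hb1.trans hb2
    · exact hb1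
    · exact subset_rfl
  have h𝓑2 : 𝓑 ⊆ compactConvex n := by
    rcases h𝓑 with rfl | rfl | rfl
    · exact subset_rfl
    · exact hb2
    · exact hb1.trans hb2
  obtain ⟨K, hK, hKε⟩ := h H (by
      rcases Nat.lt_or_ge (i + 1) n with h' | h'
      · exact Or.inl (by omega)
      · exact Or.inr ⟨by omega, by omega, j, by omega, by omega, by simp⟩) 𝓑 h𝓑1 h𝓑2 D
    (fun K hK => ⟨h𝓑2 (hD.maps K hK).1, (hD.maps K hK).2⟩) hD.monotonic hD.invariant
  have h3 : combination n (Pi.single j 1) (D K) = combination n (Pi.single j 1) K := by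
    unfold combination
    refine Finset.sum_congr rfl fun i _ => ?_
    by_cases hij : i = j
    · rw [hij, hD.preserves K (h𝓑1 (hsub hK))]
    · simp [hij]
  rw [h3, sub_self, abs_zero] at hKε
  exact absurd hε (not_lt.2 hKε)

end Pool.Agent.Results.MP_b62b68_gt.NoNearlyPreservedCombination
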